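import Pool.Agent.W734.TWB.Stms

set_option autoImplicit false

noncomputable section

namespace Pool.Agent.W821.TWB

open MeasureTheory Set Filter Metric
open Pool.Agent.W734.TWB

/-- the mixed density -/
def sg (t : ℝ) (u0 u : E3 → ℂ) (x : E3) : ℝ := (1 - t) * ‖u0 x‖ ^ 2 + t * ‖u x‖ ^ 2

/-- regularised root -/
def ww (h t : ℝ) (u0 u : E3 → ℂ) (x : E3) : ℝ := Real.sqrt (h ^ 2 + sg t u0 u x) - h

lemma sg_nonneg {t : ℝ} (h0 : 0 ≤ t) (h1 : t ≤ 1) (u0 u : E3 → ℂ) (x : E3) :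
    0 ≤ sg t u0 u x := by
  unfold sg
  have := sub_nonneg.2 h1
  positivity

lemma sg_contDiff {t : ℝ} {u0 u : E3 → ℂ} (h0 : ContDiff ℝ ((⊤ : ℕ∞) : WithTop ℕ∞) u0)
    (h1 : ContDiff ℝ ((⊤ : ℕ∞) : WithTop ℕ∞) u) :
    ContDiff ℝ ((⊤ : ℕ∞) : WithTop ℕ∞) (sg t u0 u) := by
  unfold sg
  exact (contDiff_const.mul (h0.norm_sq ℝ)).add (contDiff_const.mul (h1.norm_sq ℝ))

lemma sg_supp {t : ℝ} {u0 u : E3 → ℂ} (h0 : HasCompactSupport u0)
    (h1 : HasCompactSupport u) : HasCompactSupport (sg t u0 u) := by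
  have hK : IsCompact (tsupport u0 ∪ tsupport u) := h0.isCompact.union h1.isCompact
  refine HasCompactSupport.intro hK (fun x hx => ?_)
  have e0 : u0 x = 0 := by
    by_contra hne
    exact hx (Or.inl (subset_tsupport _ hne))
  have e1 : u x = 0 := by
    by_contra hne
    exact hx (Or.inr (subset_tsupport _ hne))
  simp [sg, e0, e1]

lemma ww_contDiff {h t : ℝ} (hh : 0 < h) (ht0 : 0 ≤ t) (ht1 : t ≤ 1) {u0 u : E3 → ℂ}
    (h0 : ContDiff ℝ ((⊤ : ℕ∞) : WithTop ℕ∞) u0)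
    (h1 : ContDiff ℝ ((⊤ : ℕ∞) : WithTop ℕ∞) u) :
    ContDiff ℝ ((⊤ : ℕ∞) : WithTop ℕ∞) (ww h t u0 u) := by
  unfold ww
  refine ContDiff.sub (ContDiff.sqrt (contDiff_const.add (sg_contDiff h0 h1)) fun x => ?_)
    contDiff_const
  have := sg_nonneg ht0 ht1 u0 u x
  positivity

lemma ww_zero {h t : ℝ} (hh : 0 < h) {u0 u : E3 → ℂ} {x : E3} (hx : sg t u0 u x = 0) :
    ww h t u0 u x = 0 := by
  unfold ww
  rw [hx, add_zero, Real.sqrt_sq hh.le, sub_self]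

lemma ww_nonneg {h t : ℝ} (ht0 : 0 ≤ t) (ht1 : t ≤ 1) (u0 u : E3 → ℂ) (x : E3) :
    0 ≤ ww h t u0 u x := by
  unfold ww
  have := sg_nonneg ht0 ht1 u0 u x
  rw [sub_nonneg]
  exact Real.le_sqrt_of_sq_le (by linarith)

lemma ww_sq_le {h t : ℝ} (hh : 0 < h) (ht0 : 0 ≤ t) (ht1 : t ≤ 1) (u0 u : E3 → ℂ) (x : E3) :
    ww h t u0 u x ^ 2 ≤ sg t u0 u x := by
  have hs := sg_nonneg ht0 ht1 u0 u x
  have h1 : Real.sqrt (h ^ 2 + sg t u0 u x) ^ 2 = h ^ 2 + sg t u0 u x :=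
    Real.sq_sqrt (by positivity)
  have h2 : h ≤ Real.sqrt (h ^ 2 + sg t u0 u x) := Real.le_sqrt_of_sq_le (by linarith)
  unfold ww
  nlinarith

lemma ww_supp {h t : ℝ} (hh : 0 < h) {u0 u : E3 → ℂ} (h0 : HasCompactSupport u0)
    (h1 : HasCompactSupport u) : HasCompactSupport (ww h t u0 u) := by
  refine HasCompactSupport.intro (sg_supp (t := t) h0 h1).isCompact (fun x hx => ?_)
  exact ww_zero hh (image_eq_zero_of_notMem_tsupport hx)

/-- the complex valued trial function -/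
def wc (h t : ℝ) (u0 u : E3 → ℂ) (x : E3) : ℂ := ((ww h t u0 u x : ℝ) : ℂ)

lemma g3_wc_le {h t : ℝ} (hh : 0 < h) (ht0 : 0 ≤ t) (ht1 : t ≤ 1) {u0 u : E3 → ℂ}
    (h0 : ContDiff ℝ ((⊤ : ℕ∞) : WithTop ℕ∞) u0)
    (h1 : ContDiff ℝ ((⊤ : ℕ∞) : WithTop ℕ∞) u) (x : E3) :
    g3 (wc h t u0 u) x ≤ (1 - t) * g3 u0 x + t * g3 u x := by
  have d0 : HasFDerivAt u0 (fderiv ℝ u0 x) x :=
    ((h0.differentiable (by simp)) x).hasFDerivAt
  have d1 : HasFDerivAt u (fderiv ℝ u x) x :=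
    ((h1.differentiable (by simp)) x).hasFDerivAt
  have ds : HasFDerivAt (sg t u0 u)
      ((1 - t) • (2 • (innerSL ℝ (u0 x)).comp (fderiv ℝ u0 x)) +
        t • (2 • (innerSL ℝ (u x)).comp (fderiv ℝ u x))) x := by
    unfold sg
    exact (d0.norm_sq.const_mul (1 - t)).add (d1.norm_sq.const_mul t)
  have hs := sg_nonneg ht0 ht1 u0 u x
  have hpos : 0 < h ^ 2 + sg t u0 u x := by positivity
  have dw : HasFDerivAt (ww h t u0 u)
      ((1 / (2 * Real.sqrt (h ^ 2 + sg t u0 u x))) •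
      ((1 - t) • (2 • (innerSL ℝ (u0 x)).comp (fderiv ℝ u0 x)) +
        t • (2 • (innerSL ℝ (u x)).comp (fderiv ℝ u x)))) x := by
    unfold ww
    exact ((ds.const_add (h ^ 2)).sqrt hpos.ne').sub_const h
  have dc : HasFDerivAt (wc h t u0 u) (Complex.ofRealCLM.comp
      ((1 / (2 * Real.sqrt (h ^ 2 + sg t u0 u x))) •
      ((1 - t) • (2 • (innerSL ℝ (u0 x)).comp (fderiv ℝ u0 x)) +
        t • (2 • (innerSL ℝ (u x)).comp (fderiv ℝ u x))))) x := by
    unfold wc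
    exact Complex.ofRealCLM.hasFDerivAt.comp x dw
  unfold g3
  rw [dc.fderiv, Finset.mul_sum, Finset.mul_sum, ← Finset.sum_add_distrib]
  refine Finset.sum_le_sum fun k _ => ?_
  set e : E3 := EuclideanSpace.single k (1 : ℝ)
  set A := fderiv ℝ u0 x e
  set B := fderiv ℝ u x e
  have hn : ‖(Complex.ofRealCLM.comp
      ((1 / (2 * Real.sqrt (h ^ 2 + sg t u0 u x))) •
      ((1 - t) • (2 • (innerSL ℝ (u0 x)).comp (fderiv ℝ u0 x)) +
        t • (2 • (innerSL ℝ (u x)).comp (fderiv ℝ u x))))) e‖ ^ 2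
      = ((1 / (2 * Real.sqrt (h ^ 2 + sg t u0 u x))) *
        ((1 - t) * (2 * inner ℝ (u0 x) A) + t * (2 * inner ℝ (u x) B))) ^ 2 := by
    simp only [ContinuousLinearMap.comp_apply, Complex.ofRealCLM_apply, Complex.norm_real,
      Real.norm_eq_abs, sq_abs]
    congr 1
    simp [A, B, two_smul, two_mul]
    ring
  rw [hn]
  have c0 : |inner ℝ (u0 x) A| ≤ ‖u0 x‖ * ‖A‖ := abs_real_inner_le_norm _ _
  have c1 : |inner ℝ (u x) B| ≤ ‖u x‖ * ‖B‖ := abs_real_inner_le_norm _ _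
  set p := inner ℝ (u0 x) A
  set q := inner ℝ (u x) B
  have hsq : (1 / (2 * Real.sqrt (h ^ 2 + sg t u0 u x)) *
      ((1 - t) * (2 * p) + t * (2 * q))) ^ 2 = ((1 - t) * p + t * q) ^ 2 /
        (h ^ 2 + sg t u0 u x) := by
    have h3 : Real.sqrt (h ^ 2 + sg t u0 u x) ^ 2 = h ^ 2 + sg t u0 u x :=
      Real.sq_sqrt hpos.le
    have h4 : 0 < Real.sqrt (h ^ 2 + sg t u0 u x) := Real.sqrt_pos.2 hpos
    rw [mul_pow, div_pow, mul_pow, h3]
    field_simp
  rw [hsq, div_le_iff₀ hpos]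
  have t1 : 0 ≤ 1 - t := sub_nonneg.2 ht1
  have p2 : p ^ 2 ≤ ‖u0 x‖ ^ 2 * ‖A‖ ^ 2 := by
    rw [← mul_pow, ← sq_abs p]
    gcongr
  have q2 : q ^ 2 ≤ ‖u x‖ ^ 2 * ‖B‖ ^ 2 := by
    rw [← mul_pow, ← sq_abs q]
    gcongr
  have pq : 2 * (p * q) ≤ ‖u0 x‖ ^ 2 * ‖B‖ ^ 2 + ‖u x‖ ^ 2 * ‖A‖ ^ 2 := by
    have : |p * q| ≤ (‖u0 x‖ * ‖A‖) * (‖u x‖ * ‖B‖) := by
      rw [abs_mul]; gcongr
    have h5 := le_abs_self (p * q)
    nlinarith [sq_nonneg (‖u0 x‖ * ‖B‖ - ‖u x‖ * ‖A‖)]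
  have main : ((1 - t) * p + t * q) ^ 2 ≤
      ((1 - t) * ‖A‖ ^ 2 + t * ‖B‖ ^ 2) * sg t u0 u x := by
    unfold sg
    have e1 : ((1 - t) * p + t * q) ^ 2 = (1 - t) ^ 2 * p ^ 2 + t ^ 2 * q ^ 2 +
      ((1 - t) * t) * (2 * (p * q)) := by ring
    have e2 : ((1 - t) * ‖A‖ ^ 2 + t * ‖B‖ ^ 2) * ((1 - t) * ‖u0 x‖ ^ 2 + t * ‖u x‖ ^ 2) =
      (1 - t) ^ 2 * (‖u0 x‖ ^ 2 * ‖A‖ ^ 2) + t ^ 2 * (‖u x‖ ^ 2 * ‖B‖ ^ 2) +
      ((1 - t) * t) * (‖u0 x‖ ^ 2 * ‖B‖ ^ 2 + ‖u x‖ ^ 2 * ‖A‖ ^ 2) := by ring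
    rw [e1, e2]
    have ht := mul_nonneg t1 ht0
    gcongr
  refine main.trans ?_
  have hAB : 0 ≤ (1 - t) * ‖A‖ ^ 2 + t * ‖B‖ ^ 2 := by positivity
  have : 0 ≤ ((1 - t) * ‖A‖ ^ 2 + t * ‖B‖ ^ 2) * h ^ 2 := by positivity
  linarith

lemma vext_nonneg {Vext : E3 → ℝ} (hV : AdmE Vext) (x : E3) : 0 ≤ Vext x := by
  obtain ⟨C, α, hC, _, h⟩ := hV.low
  exact le_trans (by positivity) (h x)

lemma integrable_vext {Vext : E3 → ℝ} (hV : AdmE Vext) {f : E3 → ℝ} (hf : Continuous f)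
    (hs : HasCompactSupport f) : Integrable (fun x => Vext x * f x) := by
  obtain ⟨M, hM⟩ := hV.loc _ hs.isCompact
  have hi : Integrable f := hf.integrable_of_hasCompactSupport hs
  refine Integrable.mono' (hi.norm.const_mul |M|)
    (hV.meas.aestronglyMeasurable.mul hi.aestronglyMeasurable) (Eventually.of_forall fun x => ?_)
  by_cases hx : x ∈ tsupport f
  · rw [norm_mul, Real.norm_eq_abs]
    have := (hM x hx).trans (le_abs_self M)
    gcongr
  · rw [image_eq_zero_of_notMem_tsupport hx]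
    simp

lemma g3_continuous {u : E3 → ℂ} (h : ContDiff ℝ ((⊤ : ℕ∞) : WithTop ℕ∞) u) :
    Continuous (g3 u) := by
  unfold g3
  have := h.continuous_fderiv (by simp)
  fun_prop

lemma g3_supp {u : E3 → ℂ} (h : HasCompactSupport u) : HasCompactSupport (g3 u) := by
  refine HasCompactSupport.intro (h.fderiv (𝕜 := ℝ)).isCompact (fun x hx => ?_)
  have : fderiv ℝ u x = 0 := image_eq_zero_of_notMem_tsupport hx
  simp [g3, this]

lemma g3_nonneg (u : E3 → ℂ) (x : E3) : 0 ≤ g3 u x := by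
  unfold g3
  positivity

lemma g3_smul (c : ℝ) {u : E3 → ℂ} (h : ContDiff ℝ ((⊤ : ℕ∞) : WithTop ℕ∞) u) (x : E3) :
    g3 (fun y => (c : ℂ) * u y) x = c ^ 2 * g3 u x := by
  have d0 : HasFDerivAt u (fderiv ℝ u x) x :=
    ((h.differentiable (by simp)) x).hasFDerivAt
  have d1 := d0.const_mul (c : ℂ)
  unfold g3
  rw [d1.fderiv, Finset.mul_sum]
  refine Finset.sum_congr rfl fun k _ => ?_
  simp [mul_pow]

lemma wc_contDiff {h t : ℝ} (hh : 0 < h) (ht0 : 0 ≤ t) (ht1 : t ≤ 1) {u0 u : E3 → ℂ}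
    (h0 : ContDiff ℝ ((⊤ : ℕ∞) : WithTop ℕ∞) u0)
    (h1 : ContDiff ℝ ((⊤ : ℕ∞) : WithTop ℕ∞) u) :
    ContDiff ℝ ((⊤ : ℕ∞) : WithTop ℕ∞) (wc h t u0 u) :=
  Complex.ofRealCLM.contDiff.comp (ww_contDiff hh ht0 ht1 h0 h1)

lemma wc_supp {h t : ℝ} (hh : 0 < h) {u0 u : E3 → ℂ} (h0 : HasCompactSupport u0)
    (h1 : HasCompactSupport u) : HasCompactSupport (wc h t u0 u) := by
  refine HasCompactSupport.intro (ww_supp (t := t) hh h0 h1).isCompact (fun x hx => ?_)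
  simp [wc, image_eq_zero_of_notMem_tsupport hx]

lemma norm_wc (h t : ℝ) (u0 u : E3 → ℂ) (x : E3) : ‖wc h t u0 u x‖ ^ 2 = ww h t u0 u x ^ 2 := by
  simp [wc]

/-- the right hand side -/
def RR (Vext : E3 → ℝ) (β γ t : ℝ) (u0 u : E3 → ℂ) : ℝ :=
  (1 - t) * (∫ x, (g3 u0 x + Vext x * ‖u0 x‖ ^ 2))
    + t * (∫ x, (g3 u x + Vext x * ‖u x‖ ^ 2))
    + ∫ x, (β / 2 * ((1 - t) * ‖u0 x‖ ^ 2 + t * ‖u x‖ ^ 2) ^ 2
      + γ / 6 * ((1 - t) * ‖u0 x‖ ^ 2 + t * ‖u x‖ ^ 2) ^ 3)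

lemma pow_integrable {f : E3 → ℝ} (hf : Continuous f) (hs : HasCompactSupport f) (n : ℕ)
    (hn : n ≠ 0) : Integrable (fun x => f x ^ n) := by
  refine (hf.pow n).integrable_of_hasCompactSupport (HasCompactSupport.intro hs.isCompact
    fun x hx => ?_)
  show f x ^ n = 0
  rw [image_eq_zero_of_notMem_tsupport hx, zero_pow hn]

lemma RR_eq {Vext : E3 → ℝ} (hV : AdmE Vext) (β γ t : ℝ) {u0 u : E3 → ℂ}
    (o0 : Orb u0) (o1 : Orb u) : RR Vext β γ t u0 u =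
    ∫ x, (((1 - t) * g3 u0 x + t * g3 u x) + Vext x * sg t u0 u x
      + (β / 2 * sg t u0 u x ^ 2 + γ / 6 * sg t u0 u x ^ 3)) := by
  have i0 : Integrable (g3 u0) := (g3_continuous o0.diff).integrable_of_hasCompactSupport
    (g3_supp o0.supp)
  have i1 : Integrable (g3 u) := (g3_continuous o1.diff).integrable_of_hasCompactSupport
    (g3_supp o1.supp)
  have n0 : HasCompactSupport (fun x => ‖u0 x‖ ^ 2) := by
    refine HasCompactSupport.intro o0.supp.isCompact fun x hx => ?_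
    simp [image_eq_zero_of_notMem_tsupport hx]
  have n1 : HasCompactSupport (fun x => ‖u x‖ ^ 2) := by
    refine HasCompactSupport.intro o1.supp.isCompact fun x hx => ?_
    simp [image_eq_zero_of_notMem_tsupport hx]
  have v0 : Integrable (fun x => Vext x * ‖u0 x‖ ^ 2) :=
    integrable_vext hV (f := fun x => ‖u0 x‖ ^ 2) (o0.diff.continuous.norm.pow 2) n0
  have v1 : Integrable (fun x => Vext x * ‖u x‖ ^ 2) :=
    integrable_vext hV (f := fun x => ‖u x‖ ^ 2) (o1.diff.continuous.norm.pow 2) n1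
  have j0 : Integrable (fun x => (1 - t) * (g3 u0 x + Vext x * ‖u0 x‖ ^ 2)) :=
    (i0.add v0).const_mul _
  have j1 : Integrable (fun x => t * (g3 u x + Vext x * ‖u x‖ ^ 2)) :=
    (i1.add v1).const_mul _
  have s2' : Integrable (fun x => β / 2 * ((1 - t) * ‖u0 x‖ ^ 2 + t * ‖u x‖ ^ 2) ^ 2
      + γ / 6 * ((1 - t) * ‖u0 x‖ ^ 2 + t * ‖u x‖ ^ 2) ^ 3) := by
    have sc : Continuous (sg t u0 u) := (sg_contDiff o0.diff o1.diff).continuous
    have ss : HasCompactSupport (sg t u0 u) := sg_supp o0.supp o1.supp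
    exact ((pow_integrable sc ss 2 (by norm_num)).const_mul _).add
      ((pow_integrable sc ss 3 (by norm_num)).const_mul _)
  have j2 : Integrable (fun x => (1 - t) * (g3 u0 x + Vext x * ‖u0 x‖ ^ 2) +
      t * (g3 u x + Vext x * ‖u x‖ ^ 2)) := j0.add j1
  unfold RR
  rw [← integral_const_mul, ← integral_const_mul, ← integral_add j0 j1,
    ← integral_add j2 s2']
  refine integral_congr_ae (Eventually.of_forall fun x => ?_)
  simp only [sg]
  ring

/-- norm square of the regularised root -/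
def mm (h t : ℝ) (u0 u : E3 → ℂ) : ℝ := ∫ x, ww h t u0 u x ^ 2

lemma gpJ_nonneg {Vext : E3 → ℝ} (hV : AdmE Vext) {β γ : ℝ} (hβ : 0 ≤ β) (hγ : 0 ≤ γ)
    (u : E3 → ℂ) : 0 ≤ gpJ Vext β γ u := by
  refine integral_nonneg fun x => ?_
  have := vext_nonneg hV x
  have := g3_nonneg u x
  simp only [Pi.zero_apply]
  positivity

lemma gpE_le {Vext : E3 → ℝ} (hV : AdmE Vext) {β γ : ℝ} (hβ : 0 ≤ β) (hγ : 0 ≤ γ)
    {u : E3 → ℂ} (hu : ContDiff ℝ ((⊤ : ℕ∞) : WithTop ℕ∞) u) (hs : HasCompactSupport u)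
    (hn : ∫ x, ‖u x‖ ^ 2 = 1) : gpE Vext β γ ≤ gpJ Vext β γ u := by
  refine csInf_le ⟨0, ?_⟩ ⟨u, hu, hs, hn, rfl⟩
  rintro E ⟨v, _, _, _, rfl⟩
  exact gpJ_nonneg hV hβ hγ v

lemma key {Vext : E3 → ℝ} (hV : AdmE Vext) {β γ : ℝ} (hβ : 0 ≤ β) (hγ : 0 ≤ γ)
    {u0 u : E3 → ℂ} (o0 : Orb u0) (o1 : Orb u) {t : ℝ} (ht0 : 0 ≤ t) (ht1 : t ≤ 1)
    {h : ℝ} (hh : 0 < h) (hm : 0 < mm h t u0 u) (hm1 : mm h t u0 u ≤ 1) :
    gpE Vext β γ * mm h t u0 u ^ 3 ≤ RR Vext β γ t u0 u := by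
  set m := mm h t u0 u with hmdef
  set c : ℝ := (Real.sqrt m)⁻¹ with hc
  have hsm : 0 < Real.sqrt m := Real.sqrt_pos.2 hm
  have hc0 : 0 < c := inv_pos.2 hsm
  have hc2 : c ^ 2 = m⁻¹ := by rw [hc, inv_pow, Real.sq_sqrt hm.le]
  set v : E3 → ℂ := fun y => (c : ℂ) * wc h t u0 u y with hv
  have vd : ContDiff ℝ ((⊤ : ℕ∞) : WithTop ℕ∞) v :=
    contDiff_const.mul (wc_contDiff hh ht0 ht1 o0.diff o1.diff)
  have wd := wc_contDiff hh ht0 ht1 o0.diff o1.diff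
  have ws := wc_supp (t := t) hh o0.supp o1.supp
  have vs : HasCompactSupport v := by
    refine HasCompactSupport.intro ws.isCompact (fun x hx => ?_)
    simp [hv, image_eq_zero_of_notMem_tsupport hx]
  have nv : ∀ x, ‖v x‖ ^ 2 = m⁻¹ * ww h t u0 u x ^ 2 := by
    intro x
    rw [hv]
    simp only [norm_mul, mul_pow, norm_wc, Complex.norm_real, Real.norm_eq_abs, sq_abs, hc2]
  have vn : ∫ x, ‖v x‖ ^ 2 = 1 := by
    simp_rw [nv]
    rw [integral_const_mul]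
    exact inv_mul_cancel₀ hm.ne'
  have h1 := gpE_le hV hβ hγ vd vs vn
  have h2 : gpJ Vext β γ v * m ^ 3 ≤ RR Vext β γ t u0 u := by
    rw [RR_eq hV β γ t o0 o1, gpJ, ← integral_mul_const]
    have wcont : Continuous (ww h t u0 u) := (ww_contDiff hh ht0 ht1 o0.diff o1.diff).continuous
    have wsupp : HasCompactSupport (ww h t u0 u) := ww_supp hh o0.supp o1.supp
    have i0 : Integrable (g3 u0) := (g3_continuous o0.diff).integrable_of_hasCompactSupport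
      (g3_supp o0.supp)
    have i1 : Integrable (g3 u) := (g3_continuous o1.diff).integrable_of_hasCompactSupport
      (g3_supp o1.supp)
    have sc : Continuous (sg t u0 u) := (sg_contDiff o0.diff o1.diff).continuous
    have ss : HasCompactSupport (sg t u0 u) := sg_supp o0.supp o1.supp
    have iR : Integrable (fun x => ((1 - t) * g3 u0 x + t * g3 u x) + Vext x * sg t u0 u x
      + (β / 2 * sg t u0 u x ^ 2 + γ / 6 * sg t u0 u x ^ 3)) :=
      (((i0.const_mul _).add (i1.const_mul _)).add (integrable_vext hV sc ss)).add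
        (((pow_integrable sc ss 2 (by norm_num)).const_mul _).add
          ((pow_integrable sc ss 3 (by norm_num)).const_mul _))
    refine integral_mono_of_nonneg (Eventually.of_forall fun x => ?_) iR
      (Eventually.of_forall fun x => ?_)
    · have := vext_nonneg hV x
      have := g3_nonneg v x
      simp only [Pi.zero_apply]
      positivity
    · simp only
      have hg : g3 v x = m⁻¹ * g3 (wc h t u0 u) x := by
        rw [hv, g3_smul c wd x, hc2]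
      have h4 : ‖v x‖ ^ 4 = (m⁻¹ * ww h t u0 u x ^ 2) ^ 2 := by
        rw [← nv x]; ring
      have h6 : ‖v x‖ ^ 6 = (m⁻¹ * ww h t u0 u x ^ 2) ^ 3 := by
        rw [← nv x]; ring
      rw [h4, h6, nv x, hg]
      have hw := ww_sq_le hh ht0 ht1 u0 u x
      have hw0 : 0 ≤ ww h t u0 u x ^ 2 := sq_nonneg _
      have hgw := g3_wc_le hh ht0 ht1 o0.diff o1.diff x
      have hgw0 := g3_nonneg (wc h t u0 u) x
      have hVx := vext_nonneg hV x
      have hs := sg_nonneg ht0 ht1 u0 u x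
      set W := ww h t u0 u x ^ 2
      set G := g3 (wc h t u0 u) x
      set S := sg t u0 u x
      have e : (m⁻¹ * G + Vext x * (m⁻¹ * W) + β / 2 * (m⁻¹ * W) ^ 2 +
          γ / 6 * (m⁻¹ * W) ^ 3) * m ^ 3 =
          m ^ 2 * G + m ^ 2 * (Vext x * W) + m * (β / 2 * W ^ 2) + γ / 6 * W ^ 3 := by
        field_simp
      rw [e]
      have m2 : m ^ 2 ≤ 1 := pow_le_one₀ hm.le hm1
      have a1 : m ^ 2 * G ≤ 1 * ((1 - t) * g3 u0 x + t * g3 u x) := by gcongr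
      have a2 : m ^ 2 * (Vext x * W) ≤ 1 * (Vext x * S) := by gcongr
      have a3 : m * (β / 2 * W ^ 2) ≤ 1 * (β / 2 * S ^ 2) := by gcongr
      have a4 : γ / 6 * W ^ 3 ≤ γ / 6 * S ^ 3 := by gcongr
      linarith
  refine le_trans ?_ h2
  gcongr

lemma mm_tendsto {t : ℝ} (ht0 : 0 ≤ t) (ht1 : t ≤ 1) {u0 u : E3 → ℂ} (o0 : Orb u0)
    (o1 : Orb u) : Tendsto (fun n : ℕ => mm (1 / ((n : ℝ) + 1)) t u0 u) atTop (nhds 1) := by
  have sc : Continuous (sg t u0 u) := (sg_contDiff o0.diff o1.diff).continuous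
  have ss : HasCompactSupport (sg t u0 u) := sg_supp o0.supp o1.supp
  have n0 : Integrable (fun x => ‖u0 x‖ ^ 2) := by
    refine (o0.diff.continuous.norm.pow 2).integrable_of_hasCompactSupport ?_
    refine HasCompactSupport.intro o0.supp.isCompact fun x hx => ?_
    simp [image_eq_zero_of_notMem_tsupport hx]
  have n1 : Integrable (fun x => ‖u x‖ ^ 2) := by
    refine (o1.diff.continuous.norm.pow 2).integrable_of_hasCompactSupport ?_
    refine HasCompactSupport.intro o1.supp.isCompact fun x hx => ?_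
    simp [image_eq_zero_of_notMem_tsupport hx]
  have h1 : ∫ x, sg t u0 u x = 1 := by
    unfold sg
    rw [integral_add (n0.const_mul _) (n1.const_mul _), integral_const_mul, integral_const_mul,
      o0.norm, o1.norm]
    ring
  rw [show nhds (1 : ℝ) = nhds (∫ x, sg t u0 u x) from by rw [h1]]
  refine tendsto_integral_of_dominated_convergence (sg t u0 u) (fun n => ?_)
    (sc.integrable_of_hasCompactSupport ss) (fun n => ?_) ?_
  · have hn : (0 : ℝ) < 1 / ((n : ℝ) + 1) := by positivity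
    exact ((ww_contDiff hn ht0 ht1 o0.diff o1.diff).continuous.pow 2).aestronglyMeasurable
  · have hn : (0 : ℝ) < 1 / ((n : ℝ) + 1) := by positivity
    refine Eventually.of_forall fun x => ?_
    rw [Real.norm_eq_abs, abs_of_nonneg (sq_nonneg _)]
    exact ww_sq_le hn ht0 ht1 u0 u x
  · refine Eventually.of_forall fun x => ?_
    have hlim : Tendsto (fun n : ℕ => 1 / ((n : ℝ) + 1)) atTop (nhds 0) :=
      tendsto_one_div_add_atTop_nhds_zero_nat
    have hcont : Continuous (fun h : ℝ => (Real.sqrt (h ^ 2 + sg t u0 u x) - h) ^ 2) := by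
      fun_prop
    have h2 := (hcont.tendsto 0).comp hlim
    have h3 : (Real.sqrt ((0 : ℝ) ^ 2 + sg t u0 u x) - 0) ^ 2 = sg t u0 u x := by
      rw [sub_zero, Real.sq_sqrt (by have := sg_nonneg ht0 ht1 u0 u x; positivity)]
      ring
    rw [h3] at h2
    exact h2

theorem cvx : S_CVX := by
  intro Vext hV β γ hβ hγ u0 u o0 o1 t ht0 ht1
  have hlim := mm_tendsto ht0 ht1 o0 o1
  have h3 : Tendsto (fun n : ℕ => gpE Vext β γ * mm (1 / ((n : ℝ) + 1)) t u0 u ^ 3) atTop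
      (nhds (gpE Vext β γ * 1 ^ 3)) := (hlim.pow 3).const_mul _
  have hev : ∀ᶠ n : ℕ in atTop, 0 < mm (1 / ((n : ℝ) + 1)) t u0 u :=
    hlim.eventually (lt_mem_nhds one_pos)
  have hle : ∀ᶠ n : ℕ in atTop, gpE Vext β γ * mm (1 / ((n : ℝ) + 1)) t u0 u ^ 3 ≤
      RR Vext β γ t u0 u := by
    filter_upwards [hev] with n hn
    have hp : (0 : ℝ) < 1 / ((n : ℝ) + 1) := by positivity
    refine key hV hβ hγ o0 o1 ht0 ht1 hp hn ?_
    have sc : Continuous (sg t u0 u) := (sg_contDiff o0.diff o1.diff).continuous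
    have ss : HasCompactSupport (sg t u0 u) := sg_supp o0.supp o1.supp
    have n0 : Integrable (fun x => ‖u0 x‖ ^ 2) := by
      refine (o0.diff.continuous.norm.pow 2).integrable_of_hasCompactSupport ?_
      refine HasCompactSupport.intro o0.supp.isCompact fun x hx => ?_
      simp [image_eq_zero_of_notMem_tsupport hx]
    have n1 : Integrable (fun x => ‖u x‖ ^ 2) := by
      refine (o1.diff.continuous.norm.pow 2).integrable_of_hasCompactSupport ?_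
      refine HasCompactSupport.intro o1.supp.isCompact fun x hx => ?_
      simp [image_eq_zero_of_notMem_tsupport hx]
    have h1 : ∫ x, sg t u0 u x = 1 := by
      unfold sg
      rw [integral_add (n0.const_mul _) (n1.const_mul _), integral_const_mul, integral_const_mul,
        o0.norm, o1.norm]
      ring
    refine le_trans (b := ∫ x, sg t u0 u x) ?_ h1.le
    unfold mm
    exact integral_mono_of_nonneg (Eventually.of_forall fun x => sq_nonneg _)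
      (sc.integrable_of_hasCompactSupport ss)
      (Eventually.of_forall fun x => ww_sq_le hp ht0 ht1 u0 u x)
  have := le_of_tendsto h3 hle
  simpa [RR] using this

end Pool.Agent.W821.TWB
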